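import Pool.Agent.J4H4.NG.Stm

/-!
# Project NG: lower bound for the number of all zeros (S_T, helper34)
-/

set_option autoImplicit false

namespace Pool.Agent.J4H34.NG

open Complex Metric Set Filter Topology
open Pool.Agent.J4H4.NG

/-- a finite factor with roots in the disc -/
structure Fz (f : ℂ → ℂ) (R : ℝ) (m : Multiset ℂ) (h : ℂ → ℂ) : Prop where
  mem : ∀ a ∈ m, a ≠ 0 ∧ ‖a‖ < R
  diff : Differentiable ℂ h
  eq : ∀ z : ℂ, f z = (m.map fun a => 1 - z / a).prod * h z

lemma prod_zero' (m : Multiset ℂ) : (m.map fun a => 1 - (0 : ℂ) / a).prod = 1 := by simp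

lemma Fz.zero {f h : ℂ → ℂ} {R : ℝ} {m : Multiset ℂ} (H : Fz f R m h) : h 0 = f 0 := by
  rw [H.eq 0, prod_zero', one_mul]

lemma maxp {h : ℂ → ℂ} (hd : Differentiable ℂ h) {r M : ℝ} (hr : 0 < r) (hb : ∀ z : ℂ, ‖z‖ = r → ‖h z‖ ≤ M) {w : ℂ}
    (hw : ‖w‖ ≤ r) : ‖h w‖ ≤ M := by
  refine Complex.norm_le_of_forall_mem_frontier_norm_le (U := ball (0:ℂ) r) isBounded_ball hd.diffContOnCl
    (fun z hz => hb z ?_) ?_
  · rw [frontier_ball (0:ℂ) hr.ne'] at hz
    simpa using hz
  · rw [closure_ball (0:ℂ) hr.ne']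
    simpa using hw

lemma fac_ge {a z : ℂ} {x : ℝ} (ha : a ≠ 0) (h : (x + 1) * ‖a‖ ≤ ‖z‖) : x ≤ ‖1 - z / a‖ := by
  have h1 : ‖z / a‖ - 1 ≤ ‖1 - z / a‖ := by
    have := norm_sub_norm_le (z / a) 1
    rw [norm_one] at this
    rw [norm_sub_rev]
    exact this
  have h2 : x + 1 ≤ ‖z / a‖ := by
    rw [norm_div, le_div_iff₀ (norm_pos_iff.2 ha)]
    exact h
  linarith

lemma prod_ge_pow (m : Multiset ℂ) {R : ℝ} (hm : ∀ a ∈ m, a ≠ 0 ∧ ‖a‖ < R) {z : ℂ} {x : ℝ} (hx : 0 ≤ x) (hz : ‖z‖ = (x + 1) * R) :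
    x ^ (Multiset.card m) ≤ ‖(m.map fun a => 1 - z / a).prod‖ := by
  induction m using Multiset.induction_on with
  | empty => simp
  | cons a s ih =>
      rw [Multiset.card_cons, Multiset.map_cons, Multiset.prod_cons, norm_mul, pow_succ, mul_comm]
      have h1 := ih (fun b hb => hm b (Multiset.mem_cons_of_mem hb))
      obtain ⟨ha, h2⟩ := hm a (Multiset.mem_cons_self a s)
      have h3 : x ≤ ‖1 - z / a‖ := fac_ge ha (by rw [hz]; exact mul_le_mul_of_nonneg_left h2.le (by linarith))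
      exact mul_le_mul h3 h1 (by positivity) (norm_nonneg _)

lemma prod_le_exp (m : Multiset ℂ) (z : ℂ) :
    ‖(m.map fun a => 1 - z / a).prod‖ ≤ Real.exp ((m.map fun a => Real.log (1 + ‖z‖ / ‖a‖)).sum) := by
  induction m using Multiset.induction_on with
  | empty => simp
  | cons a s ih =>
      rw [Multiset.map_cons, Multiset.prod_cons, norm_mul, Multiset.map_cons, Multiset.sum_cons, Real.exp_add,
        Real.exp_log (by positivity)]
      refine mul_le_mul ?_ ih (norm_nonneg _) (by positivity)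
      have := norm_sub_le (1 : ℂ) (z / a)
      rwa [norm_one, norm_div] at this

lemma prod_ge_exp (m : Multiset ℂ) {ρ : ℝ} (hρ : 0 < ρ) (hm : ∀ a ∈ m, a ≠ 0 ∧ ‖a‖ < ρ) {z : ℂ} (hz : ‖z‖ = 2 * ρ) :
    Real.exp ((m.map fun a => Real.log (ρ / ‖a‖)).sum) ≤ ‖(m.map fun a => 1 - z / a).prod‖ := by
  induction m using Multiset.induction_on with
  | empty => simp
  | cons a s ih =>
      obtain ⟨ha, h2⟩ := hm a (Multiset.mem_cons_self a s)
      have ha' := norm_pos_iff.2 ha
      rw [Multiset.map_cons, Multiset.map_cons, Multiset.prod_cons, norm_mul, Multiset.sum_cons, Real.exp_add,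
        Real.exp_log (by positivity)]
      have h1 := ih (fun b hb => hm b (Multiset.mem_cons_of_mem hb))
      refine mul_le_mul (fac_ge ha ?_) h1 (Real.exp_pos _).le (norm_nonneg _)
      rw [hz, add_mul, div_mul_cancel₀ _ ha'.ne']
      linarith

lemma dslope_spec {h : ℂ → ℂ} (hd : Differentiable ℂ h) {a : ℂ} (ha : h a = 0) :
    Differentiable ℂ (dslope h a) ∧ ∀ z, h z = (z - a) * dslope h a z := by
  refine ⟨?_, ?_⟩
  · rw [← differentiableOn_univ] at hd ⊢
    exact (Complex.differentiableOn_dslope univ_mem).2 hd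
  · intro z
    by_cases hz : z = a
    · rw [hz, ha, sub_self, zero_mul]
    · rw [dslope_of_ne _ hz, slope_def_field, ha, sub_zero]
      field_simp [sub_ne_zero.2 hz]

lemma Fz.step {f h : ℂ → ℂ} {R : ℝ} {m : Multiset ℂ} (H : Fz f R m h) (h0 : f 0 ≠ 0) {a : ℂ} (ha : h a = 0) (haR : ‖a‖ < R) :
    Fz f R (a ::ₘ m) (fun z => -a * dslope h a z) := by
  have ha0 : a ≠ 0 := by
    rintro rfl
    exact h0 (by rw [← H.zero, ha])
  obtain ⟨hd, he⟩ := dslope_spec H.diff ha
  refine ⟨fun b hb => ?_, hd.const_mul _, fun z => ?_⟩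
  · rcases Multiset.mem_cons.1 hb with rfl | hb
    · exact ⟨ha0, haR⟩
    · exact H.mem b hb
  · rw [Multiset.map_cons, Multiset.prod_cons, H.eq z, he z]
    field_simp
    ring

lemma exists_fz {f : ℂ → ℂ} (hf : Differentiable ℂ f) (h0 : f 0 ≠ 0) {R : ℝ} (hR : 0 < R) :
    ∃ (m : Multiset ℂ) (h : ℂ → ℂ), Fz f R m h ∧ ∀ z : ℂ, ‖z‖ < R → h z ≠ 0 := by
  classical
  obtain ⟨M, hM⟩ := (isCompact_closedBall (0:ℂ) (4 * R)).exists_bound_of_continuousOn hf.continuous.continuousOn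
  set S : Set ℕ := {n | ∃ (m : Multiset ℂ) (h : ℂ → ℂ), Fz f R m h ∧ Multiset.card m = n} with hS
  have hne : S.Nonempty := ⟨0, 0, f, ⟨by simp, hf, fun z => by simp⟩, by simp⟩
  have hbdd : BddAbove S := by
    obtain ⟨k, hk⟩ : ∃ k : ℕ, M / ‖f 0‖ < 3 ^ k := pow_unbounded_of_one_lt _ (by norm_num)
    refine ⟨k, ?_⟩
    rintro n ⟨m, h, H, rfl⟩
    have h1 : ‖h 0‖ ≤ M / 3 ^ (Multiset.card m) := by
      refine maxp H.diff (r := 4 * R) (by positivity) (fun z hz => ?_) (by simp; positivity)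
      rw [le_div_iff₀ (by positivity)]
      have e := prod_ge_pow m H.mem (z := z) (x := 3) (by norm_num) (by rw [hz]; ring)
      have hb := hM z (by simp [hz])
      rw [H.eq z, norm_mul] at hb
      calc ‖h z‖ * 3 ^ (Multiset.card m) ≤ ‖h z‖ * ‖(m.map fun a => 1 - z / a).prod‖ :=
            mul_le_mul_of_nonneg_left e (norm_nonneg _)
        _ ≤ M := by rw [mul_comm]; exact hb
    rw [H.zero] at h1
    have h2 : (3 : ℝ) ^ (Multiset.card m) ≤ M / ‖f 0‖ := by
      rw [le_div_iff₀ (norm_pos_iff.2 h0)]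
      rw [le_div_iff₀ (by positivity)] at h1
      linarith
    have h3 : (3 : ℝ) ^ (Multiset.card m) < 3 ^ k := h2.trans_lt hk
    exact ((pow_lt_pow_iff_right₀ (by norm_num)).1 h3).le
  obtain ⟨m, h, H, hm⟩ := Nat.sSup_mem hne hbdd
  refine ⟨m, h, H, ?_⟩
  intro z hz hz0
  have H' := H.step h0 hz0 hz
  have h1 : Multiset.card (z ::ₘ m) ∈ S := ⟨_, _, H', rfl⟩
  have h2 := le_csSup hbdd h1
  rw [Multiset.card_cons, hm] at h2
  omega

/-- even zero-free functions: the logarithm is quadratic -/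
lemma even_bound {h : ℂ → ℂ} {R M : ℝ} (hR : 0 < R) (hM : 0 < M) (hd : Differentiable ℂ h) (hev : ∀ z : ℂ, h (-z) = h z)
    (hne : ∀ z : ℂ, ‖z‖ < R → h z ≠ 0) (hb : ∀ z : ℂ, ‖z‖ < R → ‖h z‖ ≤ ‖h 0‖ * Real.exp M) :
    ∀ z : ℂ, ‖z‖ < R / 2 → ‖h z‖ ≤ ‖h 0‖ * Real.exp (8 * M * ‖z‖ ^ 2 / R ^ 2) := by
  have h0 : h 0 ≠ 0 := hne 0 (by simpa using hR)
  have hq : DifferentiableOn ℂ (fun z => deriv h z / h z) (ball 0 R) := by
    intro z hz
    rw [mem_ball_zero_iff] at hz
    exact ((hd.deriv z).div (hd z) (hne z hz)).differentiableWithinAt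
  obtain ⟨φ, hφ0, hφ⟩ := hq.isExactOn_ball.with_val_at 0 0
  have hexp : ∀ z ∈ ball (0:ℂ) R, h z = h 0 * exp (φ z) := by
    have hk : ∀ z ∈ ball (0:ℂ) R, HasDerivAt (fun z => h z * exp (-φ z)) 0 z := by
      intro z hz
      have hz' : ‖z‖ < R := by rwa [mem_ball_zero_iff] at hz
      have := (hd z).hasDerivAt.mul ((hφ z hz).neg.cexp)
      refine this.congr_deriv ?_
      have := hne z hz'
      field_simp
      ring
    intro z hz
    have hc : (fun z => h z * exp (-φ z)) z = (fun z => h z * exp (-φ z)) 0 := by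
      apply (convex_ball (0:ℂ) R).is_const_of_fderivWithin_eq_zero (𝕜 := ℂ)
        (fun w hw => (hk w hw).differentiableAt.differentiableWithinAt) _ hz
        (mem_ball_self hR)
      intro w hw
      rw [fderivWithin_of_isOpen isOpen_ball hw]
      have := (hk w hw).hasFDerivAt.fderiv
      rw [this]
      ext; simp
    simp only [hφ0, neg_zero, exp_zero, mul_one] at hc
    rw [← hc, mul_assoc, ← exp_add]; simp
  have hmaps : Set.MapsTo φ (ball 0 R) {z | z.re ≤ M} := by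
    intro z hz
    show (φ z).re ≤ M
    have hz' : ‖z‖ < R := by rwa [mem_ball_zero_iff] at hz
    have h1 := hb z hz'
    rw [hexp z hz, norm_mul, Complex.norm_exp] at h1
    have h2 := le_of_mul_le_mul_left h1 (norm_pos_iff.2 h0)
    exact Real.exp_le_exp.1 h2
  have hφd : DifferentiableOn ℂ φ (ball 0 R) := fun z hz =>
    (hφ z hz).differentiableAt.differentiableWithinAt
  have hφ' : deriv φ 0 = 0 := by
    have e1 : deriv h 0 = 0 := by
      have := deriv_comp_neg (f := h) (x := (0:ℂ))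
      have e : (fun x => h (-x)) = h := funext hev
      rw [e, neg_zero] at this
      have h2 : (2:ℂ) * deriv h 0 = 0 := by linear_combination this
      simpa using h2
    have := (hφ 0 (mem_ball_self hR)).deriv
    rw [this, e1, zero_div]
  have hsub : ball (0:ℂ) (R / 2) ⊆ ball 0 R := ball_subset_ball (by linarith)
  have hφd2 : DifferentiableOn ℂ φ (ball 0 (R / 2)) := hφd.mono hsub
  have hbd : ∀ z ∈ ball (0:ℂ) (R / 2), ‖φ z‖ ≤ 2 * M := by
    intro z hz
    have h1 := borelCaratheodory_zero hM hφd hmaps hR (hsub hz) hφ0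
    have hz' : ‖z‖ < R / 2 := by rwa [mem_ball_zero_iff] at hz
    refine h1.trans ?_
    rw [div_le_iff₀ (by linarith)]
    nlinarith [norm_nonneg z]
  intro z hz
  have hzb : z ∈ ball (0:ℂ) (R / 2) := by rwa [mem_ball_zero_iff]
  have hmt : MapsTo φ (ball 0 (R / 2)) (closedBall (φ 0) (2 * M)) := by
    intro w hw
    rw [hφ0, mem_closedBall_zero_iff]
    exact hbd w hw
  have hψ : ∀ w ∈ ball (0:ℂ) (R / 2), ‖dslope φ 0 w‖ ≤ 2 * M / (R / 2) := fun w hw =>
    norm_dslope_le_div_of_mapsTo_ball hφd2 hmt hw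
  have hψd : DifferentiableOn ℂ (dslope φ 0) (ball 0 (R / 2)) :=
    (Complex.differentiableOn_dslope (ball_mem_nhds 0 (by positivity))).2 hφd2
  have hψ0 : dslope φ 0 0 = 0 := by rw [dslope_same, hφ']
  have hmt2 : MapsTo (dslope φ 0) (ball 0 (R / 2)) (closedBall (dslope φ 0 0) (2 * M / (R / 2))) := by
    intro w hw
    rw [hψ0, mem_closedBall_zero_iff]
    exact hψ w hw
  have h3 := norm_dslope_le_div_of_mapsTo_ball hψd hmt2 hzb
  have e1 : φ z = z * dslope φ 0 z := by
    by_cases hz0 : z = 0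
    · rw [hz0, hφ0, zero_mul]
    · rw [dslope_of_ne _ hz0, slope_def_field, hφ0, sub_zero, sub_zero]
      field_simp
  have e2 : dslope φ 0 z = z * dslope (dslope φ 0) 0 z := by
    by_cases hz0 : z = 0
    · rw [hz0, hψ0, zero_mul]
    · rw [dslope_of_ne (dslope φ 0) hz0, slope_def_field, hψ0, sub_zero, sub_zero]
      field_simp
  have h4 : ‖φ z‖ ≤ 8 * M * ‖z‖ ^ 2 / R ^ 2 := by
    rw [e1, e2, norm_mul, norm_mul]
    calc ‖z‖ * (‖z‖ * ‖dslope (dslope φ 0) 0 z‖) ≤ ‖z‖ * (‖z‖ * (2 * M / (R / 2) / (R / 2))) := by gcongr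
      _ = 8 * M * ‖z‖ ^ 2 / R ^ 2 := by field_simp; ring
  rw [hexp z (hsub hzb), norm_mul, Complex.norm_exp]
  refine mul_le_mul_of_nonneg_left (Real.exp_le_exp.2 ?_) (norm_nonneg _)
  exact (Complex.re_le_norm _).trans h4

lemma split (m : Multiset ℂ) (hm : ∀ a ∈ m, a ≠ 0) {ρ : ℝ} (hρ : 0 < ρ) :
    (m.map fun a => Real.log (1 + 40 * ρ / ‖a‖)).sum ≤ Multiset.card m * Real.log 80 +
      ((m.filter fun a => ‖a‖ < ρ).map fun a => Real.log (ρ / ‖a‖)).sum := by
  classical
  induction m using Multiset.induction_on with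
  | empty => simp
  | cons a s ih =>
      have h1 := ih (fun b hb => hm b (Multiset.mem_cons_of_mem hb))
      have ha := norm_pos_iff.2 (hm a (Multiset.mem_cons_self a s))
      rw [Multiset.map_cons, Multiset.sum_cons, Multiset.card_cons, Multiset.filter_cons]
      push_cast
      split_ifs with hlt
      · rw [Multiset.singleton_add, Multiset.map_cons, Multiset.sum_cons]
        have : Real.log (1 + 40 * ρ / ‖a‖) ≤ Real.log 80 + Real.log (ρ / ‖a‖) := by
          rw [← Real.log_mul (by norm_num) (by positivity)]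
          apply Real.log_le_log (by positivity)
          have : 1 ≤ ρ / ‖a‖ := by rw [le_div_iff₀ ha]; linarith
          have e : 40 * ρ / ‖a‖ = 40 * (ρ / ‖a‖) := by ring
          rw [e]; linarith
        linarith
      · rw [zero_add]
        have : Real.log (1 + 40 * ρ / ‖a‖) ≤ Real.log 80 := by
          apply Real.log_le_log (by positivity)
          have : ρ / ‖a‖ ≤ 1 := by rw [div_le_iff₀ ha]; linarith
          have e : 40 * ρ / ‖a‖ = 40 * (ρ / ‖a‖) := by ring
          rw [e]; linarith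
        linarith

lemma order_ge {f h : ℂ → ℂ} {R : ℝ} {m : Multiset ℂ} (H : Fz f R m h) (hf : Differentiable ℂ f) (h0 : f 0 ≠ 0)
    {a : ℂ} (ha : a ∈ m) : (m.count a : ℕ) ≤ analyticOrderNatAt f a := by
  classical
  have ha0 := (H.mem a ha).1
  have hfa : AnalyticAt ℂ f a := hf.analyticAt a
  have hle : ((m.count a : ℕ) : ℕ∞) ≤ analyticOrderAt f a := by
    rw [natCast_le_analyticOrderAt hfa]
    refine ⟨fun z => (-1 / a) ^ (m.count a) * (((m.filter fun b => ¬ (a = b)).map fun b => 1 - z / b).prod * h z), ?_, ?_⟩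
    · have : Differentiable ℂ (fun z => (-1 / a) ^ (m.count a) *
          (((m.filter fun b => ¬ (a = b)).map fun b => 1 - z / b).prod * h z)) := by
        refine (Differentiable.mul ?_ H.diff).const_mul _
        induction (m.filter fun b => ¬ (a = b)) using Multiset.induction_on with
        | empty => simp
        | cons b s ih =>
            simp only [Multiset.map_cons, Multiset.prod_cons]
            exact ((differentiable_const _).sub (differentiable_id.div_const _)).mul ih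
      exact this.analyticAt a
    · refine Eventually.of_forall fun z => ?_
      rw [H.eq z, smul_eq_mul]
      have e : (m.map fun b => 1 - z / b).prod =
          (1 - z / a) ^ (m.count a) * ((m.filter fun b => ¬ (a = b)).map fun b => 1 - z / b).prod := by
        conv_lhs => rw [← Multiset.filter_add_not (fun b => a = b) m]
        rw [Multiset.map_add, Multiset.prod_add, Multiset.filter_eq, Multiset.map_replicate, Multiset.prod_replicate]
      rw [e]
      have e2 : (1 - z / a) = (z - a) * (-1 / a) := by field_simp; ring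
      rw [e2, mul_pow]
      ring
  have hfin : analyticOrderAt f a ≠ ⊤ := by
    intro htop
    rw [analyticOrderAt_eq_top] at htop
    have hn : AnalyticOnNhd ℂ f univ := fun z _ => hf.analyticAt z
    have := hn.eqOn_zero_of_preconnected_of_eventuallyEq_zero isPreconnected_univ (mem_univ a) htop
    exact h0 (this (mem_univ 0))
  unfold analyticOrderNatAt
  exact ENat.natCast_le_natCast.1 (by rwa [ENat.natCast_toNat hfin])

lemma Hd_even (t : ℝ) (z : ℂ) : J4H2.DN.Hd t (-z) = J4H2.DN.Hd t z := by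
  unfold J4H2.DN.Hd
  congr 1
  funext u
  rw [neg_mul, Complex.cos_neg]

lemma small_sum {f h : ℂ → ℂ} {R : ℝ} {m : Multiset ℂ} (H : Fz f R m h) (h0 : f 0 ≠ 0) {R₀ : ℝ}
    (hup : ∀ z : ℂ, R₀ ≤ ‖z‖ → ‖f z‖ ≤ Real.exp (‖z‖ * Real.log ‖z‖)) {ρ : ℝ} (hρ0 : 0 < ρ) (hρ : R₀ ≤ 2 * ρ) :
    ((m.filter fun a => ‖a‖ < ρ).map fun a => Real.log (ρ / ‖a‖)).sum ≤ 2 * ρ * Real.log (2 * ρ) - Real.log ‖f 0‖ := by
  classical
  set s := m.filter fun a => ‖a‖ < ρ with hs
  set r := m.filter fun a => ¬ ‖a‖ < ρ with hr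
  have hmr : s + r = m := Multiset.filter_add_not _ m
  set g : ℂ → ℂ := fun z => (r.map fun a => 1 - z / a).prod * h z with hg
  have hgd : Differentiable ℂ g := by
    refine Differentiable.mul ?_ H.diff
    induction r using Multiset.induction_on with
    | empty => simp
    | cons b s ih =>
        simp only [Multiset.map_cons, Multiset.prod_cons]
        exact ((differentiable_const _).sub (differentiable_id.div_const _)).mul (ih)
  have hfg : ∀ z, f z = (s.map fun a => 1 - z / a).prod * g z := by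
    intro z
    rw [H.eq z, ← hmr, Multiset.map_add, Multiset.prod_add, hg, mul_assoc]
  have hsm : ∀ a ∈ s, a ≠ 0 ∧ ‖a‖ < ρ := fun a ha =>
    ⟨(H.mem a (Multiset.mem_filter.1 ha).1).1, (Multiset.mem_filter.1 ha).2⟩
  set Sg := (s.map fun a => Real.log (ρ / ‖a‖)).sum with hSg
  have hg0 : g 0 = f 0 := by rw [hfg 0, prod_zero', one_mul]
  have hb : ‖g 0‖ ≤ Real.exp (2 * ρ * Real.log (2 * ρ) - Sg) := by
    refine maxp hgd (r := 2 * ρ) (by positivity) (fun z hz => ?_) (by simp; positivity)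
    have h1 := prod_ge_exp s hρ0 hsm hz
    have h2 := hup z (by rw [hz]; exact hρ)
    rw [hfg z, norm_mul, hz] at h2
    rw [Real.exp_sub, le_div_iff₀ (Real.exp_pos _)]
    calc ‖g z‖ * Real.exp Sg ≤ ‖g z‖ * ‖(s.map fun a => 1 - z / a).prod‖ := mul_le_mul_of_nonneg_left h1 (norm_nonneg _)
      _ ≤ _ := by rw [mul_comm]; exact h2
  rw [hg0] at hb
  have := Real.log_le_log (norm_pos_iff.2 h0) hb
  rw [Real.log_exp] at this
  linarith

lemma core {f h : ℂ → ℂ} {R : ℝ} {m : Multiset ℂ} (H : Fz f R m h) (hne : ∀ z : ℂ, ‖z‖ < R → h z ≠ 0)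
    (hev : ∀ z, f (-z) = f z) (h0 : f 0 ≠ 0) {R₀ : ℝ}
    (hup : ∀ z : ℂ, R₀ ≤ ‖z‖ → ‖f z‖ ≤ Real.exp (‖z‖ * Real.log ‖z‖))
    {r : ℝ} (hr : 0 < r) (hR0 : 0 < R) (hrR : r < R / 2) (hR : R₀ ≤ 2 * R)
    (hM : 0 < 4 * R * Real.log (2 * R) - 2 * Real.log ‖f 0‖) {x : ℝ} (hx : Real.exp x ≤ ‖f (I * r)‖) :
    2 * x ≤ 2 * (m.map fun a => Real.log (1 + r / ‖a‖)).sum + 2 * Real.log ‖f 0‖ +
      8 * (4 * R * Real.log (2 * R) - 2 * Real.log ‖f 0‖) * r ^ 2 / R ^ 2 := by
  have hf0 := norm_pos_iff.2 h0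
  set M := 4 * R * Real.log (2 * R) - 2 * Real.log ‖f 0‖ with hMd
  have hhb : ∀ z : ℂ, ‖z‖ ≤ 2 * R → ‖h z‖ ≤ Real.exp (2 * R * Real.log (2 * R)) := by
    intro z hz
    refine maxp H.diff (r := 2 * R) (by positivity) (fun w hw => ?_) hz
    have h1 := prod_ge_pow m H.mem (z := w) (x := 1) (by norm_num) (by rw [hw]; ring)
    rw [one_pow] at h1
    have h2 := hup w (by rw [hw]; exact hR)
    rw [H.eq w, norm_mul, hw] at h2
    calc ‖h w‖ = 1 * ‖h w‖ := (one_mul _).symm
      _ ≤ ‖(m.map fun a => 1 - w / a).prod‖ * ‖h w‖ := mul_le_mul_of_nonneg_right h1 (norm_nonneg _)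
      _ ≤ _ := h2
  set G : ℂ → ℂ := fun z => h z * h (-z) with hG
  have hGd : Differentiable ℂ G := H.diff.mul (H.diff.comp differentiable_neg)
  have hG0 : ‖G 0‖ = ‖f 0‖ ^ 2 := by
    simp only [hG, neg_zero, norm_mul, H.zero]
    ring
  have hGb : ∀ z : ℂ, ‖z‖ < R → ‖G z‖ ≤ ‖G 0‖ * Real.exp M := by
    intro z hz
    have e : ‖G 0‖ * Real.exp M = Real.exp (2 * R * Real.log (2 * R)) * Real.exp (2 * R * Real.log (2 * R)) := by
      rw [hG0]
      have : ‖f 0‖ ^ 2 = Real.exp (2 * Real.log ‖f 0‖) := by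
        rw [mul_comm, Real.exp_mul, Real.exp_log hf0]
        norm_num
      rw [this, ← Real.exp_add, ← Real.exp_add, hMd]
      congr 1
      ring
    rw [e, hG, norm_mul]
    exact mul_le_mul (hhb z (by linarith)) (hhb (-z) (by rw [norm_neg]; linarith)) (norm_nonneg _) (Real.exp_pos _).le
  have hev' : ∀ z, G (-z) = G z := fun z => by simp only [hG, neg_neg]; ring
  have hGne : ∀ z : ℂ, ‖z‖ < R → G z ≠ 0 := fun z hz => mul_ne_zero (hne z hz) (hne _ (by rwa [norm_neg]))
  set z₁ : ℂ := I * r with hz₁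
  have hn1 : ‖z₁‖ = r := by rw [hz₁, norm_mul, norm_I, one_mul, Complex.norm_real, Real.norm_eq_abs, abs_of_pos hr]
  have hG1 := even_bound hR0 hM hGd hev' hGne hGb z₁ (by rw [hn1]; exact hrR)
  rw [hn1] at hG1
  have hP1 := prod_le_exp m z₁
  have hP2 := prod_le_exp m (-z₁)
  rw [norm_neg, hn1] at hP2
  rw [hn1] at hP1
  set Sm := (m.map fun a => Real.log (1 + r / ‖a‖)).sum with hSm
  have hff : ‖f z₁‖ * ‖f z₁‖ ≤ Real.exp Sm * Real.exp Sm * (‖G 0‖ * Real.exp (8 * M * r ^ 2 / R ^ 2)) := by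
    have e : ‖f z₁‖ * ‖f z₁‖ = ‖(m.map fun a => 1 - z₁ / a).prod‖ * ‖(m.map fun a => 1 - (-z₁) / a).prod‖ * ‖G z₁‖ := by
      conv_lhs => rw [← norm_mul]
      nth_rewrite 2 [← hev z₁]
      rw [H.eq z₁, H.eq (-z₁), hG]
      rw [← norm_mul, ← norm_mul]
      congr 1
      ring
    rw [e]
    exact mul_le_mul (mul_le_mul hP1 hP2 (norm_nonneg _) (Real.exp_pos _).le) hG1 (norm_nonneg _) (by positivity)
  have hxx : Real.exp (2 * x) ≤ ‖f z₁‖ * ‖f z₁‖ := by
    have e : Real.exp (2 * x) = Real.exp x * Real.exp x := by rw [← Real.exp_add]; ring_nf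
    rw [e]
    exact mul_le_mul hx hx (Real.exp_pos _).le (norm_nonneg _)
  have hG0' : ‖G 0‖ = Real.exp (2 * Real.log ‖f 0‖) := by
    rw [hG0, mul_comm, Real.exp_mul, Real.exp_log hf0]
    norm_num
  rw [hG0', ← Real.exp_add, ← Real.exp_add, ← Real.exp_add] at hff
  have := Real.exp_le_exp.1 (hxx.trans hff)
  linarith

theorem t_T : S_T := by
  classical
  intro hG _
  refine ⟨1 / 64000, by norm_num, fun b hb => ?_⟩
  obtain ⟨R₀, hR₀, hup, hlo, h0, hd⟩ := hG b hb
  set f := J4H2.DN.Hd (-b) with hfd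
  set l₀ := Real.log ‖f 0‖ with hl₀
  refine ⟨max (12800 * R₀) (max (320 * |l₀|) (320 * Real.exp 17)), le_trans (by linarith) (le_max_left _ _), fun R hR => ?_⟩
  have hR1 : 12800 * R₀ ≤ R := (le_max_left _ _).trans hR
  have hR2 : 320 * |l₀| ≤ R := (le_max_left _ _).trans ((le_max_right _ _).trans hR)
  have hR3 : 320 * Real.exp 17 ≤ R := (le_max_right _ _).trans ((le_max_right _ _).trans hR)
  have hRpos : 0 < R := lt_of_lt_of_le (by positivity) hR3
  obtain ⟨m, h, H, hne⟩ := exists_fz hd h0 hRpos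
  refine ⟨m.toFinset, fun z hz => ?_, ?_⟩
  · have hz' := Multiset.mem_toFinset.1 hz
    obtain ⟨hz0, hzR⟩ := H.mem z hz'
    refine ⟨?_, hzR.le⟩
    rw [H.eq z]
    have : (m.map fun a => 1 - z / a).prod = 0 := by
      refine Multiset.prod_eq_zero (Multiset.mem_map.2 ⟨z, hz', ?_⟩)
      rw [div_self hz0, sub_self]
    rw [this, zero_mul]
  have hcard : (Multiset.card m : ℝ) ≤ ∑ z ∈ m.toFinset, (analyticOrderNatAt f z : ℝ) := by
    rw [← Multiset.toFinset_sum_count_eq m]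
    push_cast
    refine Finset.sum_le_sum fun z hz => ?_
    exact_mod_cast order_ge H hd h0 (Multiset.mem_toFinset.1 hz)
  refine le_trans ?_ hcard
  set r := R / 320 with hr
  have hRr : R = 320 * r := by rw [hr]; ring
  have hr17 : Real.exp 17 ≤ r := by rw [hr]; linarith
  have hrl : |l₀| ≤ r := by rw [hr]; linarith
  have hrpos : 0 < r := lt_of_lt_of_le (Real.exp_pos _) hr17
  have hlog17 : 17 ≤ Real.log r := by rw [Real.le_log_iff_exp_le hrpos]; exact hr17
  have hl6 : Real.log 320 ≤ 6 := by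
    rw [Real.log_le_iff_le_exp (by norm_num)]
    have : (2.7 : ℝ) ^ 6 ≤ Real.exp 1 ^ 6 := pow_le_pow_left₀ (by norm_num) (by linarith [Real.exp_one_gt_d9]) 6
    rw [← Real.exp_nat_mul] at this
    norm_num at this ⊢
    linarith
  have hl7 : Real.log 640 ≤ 7 := by
    rw [Real.log_le_iff_le_exp (by norm_num)]
    have : (2.7 : ℝ) ^ 7 ≤ Real.exp 1 ^ 7 := pow_le_pow_left₀ (by norm_num) (by linarith [Real.exp_one_gt_d9]) 7
    rw [← Real.exp_nat_mul] at this
    norm_num at this ⊢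
    linarith
  have hl5 : Real.log 80 ≤ 5 := by
    rw [Real.log_le_iff_le_exp (by norm_num)]
    have : (2.7 : ℝ) ^ 5 ≤ Real.exp 1 ^ 5 := pow_le_pow_left₀ (by norm_num) (by linarith [Real.exp_one_gt_d9]) 5
    rw [← Real.exp_nat_mul] at this
    norm_num at this ⊢
    linarith
  have hlogR : Real.log R = Real.log 320 + Real.log r := by
    rw [hRr, Real.log_mul (by norm_num) hrpos.ne']
  have hlog2R : Real.log (2 * R) = Real.log 640 + Real.log r := by
    rw [hRr, show 2 * (320 * r) = 640 * r by ring, Real.log_mul (by norm_num) hrpos.ne']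
  have h640 : 0 ≤ Real.log 640 := Real.log_nonneg (by norm_num)
  have habs := abs_le.1 (le_refl |l₀|)
  have hM : 0 < 4 * R * Real.log (2 * R) - 2 * Real.log ‖f 0‖ := by
    rw [hlog2R, ← hl₀, hRr]
    nlinarith
  have hcore := core H hne (Hd_even (-b)) h0 hup hrpos hRpos (by rw [hRr]; linarith) (by linarith) hM
    (x := r / 5 * Real.log r) (hlo r (by rw [hr]; linarith))
  have hsplit := split m (fun a ha => (H.mem a ha).1) (ρ := r / 40) (by positivity)
  have hsmall := small_sum H h0 hup (ρ := r / 40) (by positivity) (by rw [hr]; linarith)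
  have e40 : 40 * (r / 40) = r := by ring
  rw [e40] at hsplit
  have hlog20 : Real.log (2 * (r / 40)) ≤ Real.log r := Real.log_le_log (by positivity) (by linarith)
  rw [← hl₀] at hcore hsmall
  have e8 : 8 * (4 * R * Real.log (2 * R) - 2 * l₀) * r ^ 2 / R ^ 2 =
      r / 10 * (Real.log 640 + Real.log r) - l₀ / 6400 := by
    rw [hlog2R, hRr]
    field_simp
    ring
  rw [e8] at hcore
  set n : ℝ := (Multiset.card m : ℝ) with hn
  have hn0 : 0 ≤ n := Nat.cast_nonneg _
  have h1 : n * Real.log 80 ≤ n * 5 := mul_le_mul_of_nonneg_left hl5 hn0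
  have h2 : 2 * (r / 40) * Real.log (2 * (r / 40)) ≤ 2 * (r / 40) * Real.log r :=
    mul_le_mul_of_nonneg_left hlog20 (by positivity)
  have h3 : r / 10 * Real.log 640 ≤ r / 10 * 7 := mul_le_mul_of_nonneg_left hl7 (by positivity)
  have h4 : r * 17 ≤ r * Real.log r := mul_le_mul_of_nonneg_left hlog17 hrpos.le
  have h5 : (1 : ℝ) / 64000 * R * Real.log R ≤ 1 / 100 * (r * Real.log r) := by
    rw [hlogR, hRr]
    nlinarith
  refine h5.trans ?_
  nlinarith [hcore, hsplit, hsmall]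

end Pool.Agent.J4H34.NG
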